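import Pool.Agent.Q283.GrowthTree
import Pool.Agent.Q283.StrictPart

/-!
# MP_c76eb3: the tree of shifted standard Young tableaux is rigid
-/

namespace Pool.Agent.Results.MP_c76eb3_co.Rigid

open Pool.Agent.Q283.GrowthTree Pool.Agent.Q283.StrictPart Finset

/-- A shifted standard Young tableau, given as the list of its cells in the order of their
entries (the `m`-th member of the list is the cell with entry `m`; the cell `(i, j)` is in row
`i` and column `j`, counted from `0`): the cells are distinct, satisfy `i ≤ j` and form a shifted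
Young diagram, i.e. the set of cells is closed under passing to a cell `(i', j')` with
`i' ≤ i`, `j' ≤ j` and `i' ≤ j'`, and a cell weakly above and weakly left of another one has the
smaller entry. -/
def IsShifted (T : List (ℕ × ℕ)) : Prop :=
  T.Nodup ∧ (∀ c ∈ T, c.1 ≤ c.2) ∧
    (∀ c ∈ T, ∀ d : ℕ × ℕ, d.1 ≤ d.2 → d.1 ≤ c.1 → d.2 ≤ c.2 → d ∈ T) ∧
    T.Pairwise fun c d => ¬ (d.1 ≤ c.1 ∧ d.2 ≤ c.2)

/-- The tree of shifted standard Young tableaux: two tableaux are joined if one is obtained from
the other by deleting the cell with the largest entry (the last member of the list). -/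
def tree : SimpleGraph {T : List (ℕ × ℕ) // IsShifted T} := graph IsShifted

theorem isShifted_append {T : List (ℕ × ℕ)} {c : ℕ × ℕ} :
    IsShifted (T ++ [c]) ↔ IsShifted T ∧ c.1 ≤ c.2 ∧ c ∉ T ∧
      ∀ d : ℕ × ℕ, d.1 ≤ d.2 → d.1 ≤ c.1 → d.2 ≤ c.2 → d ≠ c → d ∈ T := by
  constructor
  · rintro ⟨h1, h2, h3, h4⟩
    rw [List.pairwise_append] at h4
    have hcT : c ∉ T := fun hc => h4.2.2 c hc c (by simp) ⟨le_rfl, le_rfl⟩
    refine ⟨⟨(List.nodup_append'.mp h1).1, fun d hd => h2 d (by simp [hd]), ?_, h4.1⟩,
      h2 c (by simp), hcT, ?_⟩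
    · intro d hd e he0 he1 he2
      have := h3 d (by simp [hd]) e he0 he1 he2
      rw [List.mem_append, List.mem_singleton] at this
      rcases this with h | h
      · exact h
      · subst h
        exact absurd ⟨he1, he2⟩ (h4.2.2 d hd e (by simp))
    · intro d hd0 hd1 hd2 hne
      have := h3 c (by simp) d hd0 hd1 hd2
      rw [List.mem_append, List.mem_singleton] at this
      exact this.resolve_right hne
  · rintro ⟨⟨h1, h2, h3, h4⟩, hck, hcT, hlow⟩
    refine ⟨?_, ?_, ?_, ?_⟩
    · rw [List.nodup_append']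
      refine ⟨h1, List.nodup_singleton c, ?_⟩
      intro d hd hd'
      rw [List.mem_singleton] at hd'
      exact hcT (hd' ▸ hd)
    · intro d hd
      rw [List.mem_append, List.mem_singleton] at hd
      rcases hd with h | h
      · exact h2 d h
      · exact h ▸ hck
    · intro d hd e he0 he1 he2
      rw [List.mem_append, List.mem_singleton] at hd ⊢
      rcases hd with h | h
      · exact Or.inl (h3 d h e he0 he1 he2)
      · subst h
        by_cases hec : e = d
        · exact Or.inr hec
        · exact Or.inl (hlow e he0 he1 he2 hec)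
    · rw [List.pairwise_append]
      refine ⟨h4, List.pairwise_singleton _ _, ?_⟩
      intro d hd e he hle
      rw [List.mem_singleton] at he
      subst he
      exact hcT (h3 d hd e hck hle.1 hle.2)

/-- the length of row `i` -/
def row (T : List (ℕ × ℕ)) (i : ℕ) : ℕ := T.countP fun c => c.1 = i

theorem row_append (T : List (ℕ × ℕ)) (c : ℕ × ℕ) (i : ℕ) :
    row (T ++ [c]) i = row T i + if c.1 = i then 1 else 0 := by
  unfold row
  rw [List.countP_append, List.countP_singleton]
  by_cases h : c.1 = i <;> simp [h]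

theorem snd_eq {T : List (ℕ × ℕ)} {c : ℕ × ℕ}
    (ih : ∀ i j, (i, j) ∈ T ↔ i ≤ j ∧ j < i + row T i) (hc : c.1 ≤ c.2) (hcT : c ∉ T)
    (hlow : ∀ d : ℕ × ℕ, d.1 ≤ d.2 → d.1 ≤ c.1 → d.2 ≤ c.2 → d ≠ c → d ∈ T) :
    c.2 = c.1 + row T c.1 := by
  have h1 : ¬ c.2 < c.1 + row T c.1 := fun h => hcT ((ih c.1 c.2).mpr ⟨hc, h⟩)
  by_contra hne
  have h2 : c.1 + row T c.1 < c.2 := by omega
  have h3 := hlow (c.1, c.1 + row T c.1) (Nat.le_add_right _ _) le_rfl h2.le (fun he => by
    have := congrArg Prod.snd he
    simp only at this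
    omega)
  exact lt_irrefl _ ((ih _ _).mp h3).2

theorem mem_iff (T : List (ℕ × ℕ)) :
    IsShifted T → ∀ i j, (i, j) ∈ T ↔ i ≤ j ∧ j < i + row T i := by
  induction T using List.reverseRecOn with
  | nil =>
    intro _ i j
    simp only [row, List.countP_nil, List.not_mem_nil, false_iff, not_and]
    omega
  | append_singleton T c ih =>
    intro h i j
    obtain ⟨hT, hc0, hcT, hlow⟩ := isShifted_append.mp h
    have ih := ih hT
    have hc := snd_eq ih hc0 hcT hlow
    rw [List.mem_append, List.mem_singleton, row_append, ih]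
    by_cases hi : c.1 = i
    · subst hi
      rw [if_pos rfl]
      constructor
      · rintro (⟨h, h'⟩ | h)
        · exact ⟨h, by omega⟩
        · have := congrArg Prod.snd h
          simp only at this
          omega
      · rintro ⟨h, h'⟩
        rcases Nat.lt_or_ge j (c.1 + row T c.1) with h'' | h''
        · exact Or.inl ⟨h, h''⟩
        · right
          refine Prod.ext rfl ?_
          simp only
          omega
    · rw [if_neg hi, add_zero]
      constructor
      · rintro (h | h)
        · exact h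
        · exact absurd (congrArg Prod.fst h).symm hi
      · exact Or.inl

theorem row_strict {T : List (ℕ × ℕ)} (h : IsShifted T) : Strict (row T) := by
  intro i
  rcases Nat.eq_zero_or_pos (row T (i + 1)) with h0 | hpos
  · rcases Nat.eq_zero_or_pos (row T i) with h1 | h1
    · exact Or.inr ⟨h1, h0⟩
    · left
      omega
  · left
    have h1 := (mem_iff T h (i + 1) (i + row T (i + 1))).mpr ⟨by omega, by omega⟩
    have h2 := h.2.2.1 _ h1 (i, i + row T (i + 1)) (Nat.le_add_right _ _) (by simp) le_rfl
    have h3 := (mem_iff T h _ _).mp h2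
    omega

theorem append_iff {T : List (ℕ × ℕ)} (h : IsShifted T) (c : ℕ × ℕ) :
    IsShifted (T ++ [c]) ↔ ∃ i : ℕ, Addable (row T) i ∧ c = (i, i + row T i) := by
  rw [isShifted_append]
  constructor
  · rintro ⟨-, hc0, hcT, hlow⟩
    have hc := snd_eq (mem_iff T h) hc0 hcT hlow
    refine ⟨c.1, ?_, Prod.ext rfl hc⟩
    rcases hi : c.1 with _ | i
    · trivial
    · change row T (i + 1) + 1 < row T i
      have h3 := hlow (i, c.2) (by simp only; omega) (by simp only; omega) le_rfl (fun he => by
        have := congrArg Prod.fst he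
        simp only at this
        omega)
      have h4 := (mem_iff T h _ _).mp h3
      rw [hi] at hc
      omega
  · rintro ⟨i, hi, rfl⟩
    refine ⟨h, Nat.le_add_right _ _, ?_, ?_⟩
    · intro hmem
      exact lt_irrefl _ ((mem_iff T h _ _).mp hmem).2
    · rintro ⟨d1, d2⟩ hd0 hd1 hd2 hne
      simp only at hd0 hd1 hd2
      rw [mem_iff T h]
      refine ⟨hd0, ?_⟩
      rcases Nat.lt_or_ge d1 i with hlt | hge
      · obtain ⟨i, rfl⟩ : ∃ m, i = m + 1 := ⟨i - 1, by omega⟩
        have h1 : row T (i + 1) + 1 < row T i := hi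
        have h2 := strict_add_le (row_strict h) (a := d1) (b := i) (by omega) (by omega)
        omega
      · have he : d1 = i := le_antisymm hd1 hge
        subst he
        refine lt_of_le_of_ne hd2 fun he => hne ?_
        exact Prod.ext rfl he

theorem row_append_eq (T : List (ℕ × ℕ)) (i : ℕ) (x : ℕ) :
    row (T ++ [(i, x)]) = bump (row T) i := by
  funext j
  rw [row_append]
  by_cases h : j = i
  · subst h
    rw [bump_same]
    simp
  · rw [bump_ne _ h, if_neg (fun h' => h h'.symm), add_zero]

theorem isTree : IsTree IsShifted where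
  nil := by simp [IsShifted]
  init := fun T c h => (isShifted_append.mp h).1
  uniq := by
    intro a b ha hb
    have key : ∀ a : ℕ × ℕ, IsShifted [a] → a = (0, 0) := by
      intro a ha
      have := ha.2.2.1 a (by simp) (0, 0) le_rfl (Nat.zero_le _) (Nat.zero_le _)
      exact (List.mem_singleton.mp this).symm
    rw [key a ha, key b hb]
  child := fun T h => ⟨_, (append_iff h _).mpr ⟨0, addable_zero _, rfl⟩⟩

/-- an automorphism maps the child in an addable row to a child -/
theorem step' (φ : tree ≃g tree) (T : {T : List (ℕ × ℕ) // IsShifted T})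
    (i : ℕ) (h : IsShifted (T.1 ++ [(i, i + row T.1 i)])) :
    ∃ j : ℕ, Addable (row (φ T).1) j ∧
      (φ ⟨T.1 ++ [(i, i + row T.1 i)], h⟩).1 = (φ T).1 ++ [(j, j + row (φ T).1 j)] := by
  obtain ⟨d, hd0⟩ := map_append isTree φ T.1 _ T.2 h
  have hd : (φ ⟨T.1 ++ [(i, i + row T.1 i)], h⟩).1 = (φ T).1 ++ [d] := hd0
  have h2 : IsShifted ((φ T).1 ++ [d]) := by
    have h3 := (φ ⟨T.1 ++ [(i, i + row T.1 i)], h⟩).2
    rw [hd] at h3
    exact h3
  obtain ⟨j, hj, rfl⟩ := (append_iff (φ T).2 d).mp h2
  exact ⟨j, hj, hd⟩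

/-- the relation on shapes induced by the automorphisms -/
def rel (f g : ℕ → ℕ) : Prop :=
  ∃ (φ : tree ≃g tree) (T : {T : List (ℕ × ℕ) // IsShifted T}), row T.1 = f ∧ row (φ T).1 = g

theorem rel_symm {f g : ℕ → ℕ} (h : rel f g) : rel g f := by
  obtain ⟨φ, T, h1, h2⟩ := h
  refine ⟨φ.symm, φ T, h2, ?_⟩
  have : φ.symm (φ T) = T := RelIso.symm_apply_apply φ T
  rw [this]
  exact h1

theorem rel_card_le {f g : ℕ → ℕ} (h : rel f g) : (addable f).card ≤ (addable g).card := by
  obtain ⟨φ, T, rfl, rfl⟩ := h
  have hs := row_strict T.2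
  have hs' := row_strict (φ T).2
  have hex : ∀ i ∈ addable (row T.1), IsShifted (T.1 ++ [(i, i + row T.1 i)]) := fun i hi =>
    (append_iff T.2 _).mpr ⟨i, (mem_addable hs).mp hi, rfl⟩
  choose! F hF using fun (i : ℕ) (hi : i ∈ addable (row T.1)) => step' φ T i (hex i hi)
  refine Finset.card_le_card_of_injOn F (fun i hi => (mem_addable hs').mpr (hF i hi).1) ?_
  intro i hi j hj hij
  have h1 := (hF i hi).2
  have h2 := (hF j hj).2
  rw [hij, ← h2] at h1
  have h3 := congrArg Subtype.val (φ.injective (Subtype.ext h1))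
  have h4 := (List.append_inj' h3 rfl).2
  simp only [List.cons.injEq, Prod.mk.injEq, and_true] at h4
  exact h4.1

theorem rel_bisim : Bisim rel where
  strict := by
    rintro f g ⟨φ, T, rfl, -⟩
    exact row_strict T.2
  symm := fun f g h => rel_symm h
  card := fun f g h => le_antisymm (rel_card_le h) (rel_card_le (rel_symm h))
  step := by
    rintro f g ⟨φ, T, rfl, rfl⟩ i hi
    have h := (append_iff T.2 _).mpr ⟨i, hi, rfl⟩
    obtain ⟨j, hj, hij⟩ := step' φ T i h
    refine ⟨j, hj, φ, ⟨_, h⟩, row_append_eq _ _ _, ?_⟩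
    rw [hij, row_append_eq]

/-- **The tree of shifted standard Young tableaux has no automorphism but the identity.** -/
theorem result (φ : tree ≃g tree) : φ = SimpleGraph.Iso.refl := by
  refine eq_refl_of_shape isTree φ row ?_ ?_
  · intro T c d hc hd hcd
    have hT := (isShifted_append.mp hc).1
    obtain ⟨i, -, rfl⟩ := (append_iff hT c).mp hc
    obtain ⟨j, -, rfl⟩ := (append_iff hT d).mp hd
    rw [row_append_eq, row_append_eq] at hcd
    have : i = j := by
      by_contra hne
      have h1 := congrFun hcd i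
      rw [bump_same, bump_ne _ hne] at h1
      omega
    rw [this]
  · intro T
    funext n
    exact (eq_of_rel n rel rel_bisim _ _ ⟨φ, T, rfl, rfl⟩).symm

end Pool.Agent.Results.MP_c76eb3_co.Rigid
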